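import Mathlib

/-!
Shift operators on families of elements of a complex algebra indexed by integer points.
Helper file for the simplicity of central quotients of the Virasoro enveloping algebra.
-/

set_option autoImplicit false

open MvPolynomial

namespace Pool.Agent.Lib.VirSimple

section shift

variable {U : Type*} [Ring U] [Algebra ℂ U]

/-- The translation vector of a multi-exponent. -/
def tr (s : ℕ →₀ ℕ) : ℕ → ℤ := fun i => (s i : ℤ)

lemma tr_zero : tr 0 = 0 := by
  funext i; simp [tr]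

lemma tr_add (s t : ℕ →₀ ℕ) : tr (s + t) = tr s + tr t := by
  funext i; simp [tr]

lemma tr_single (i : ℕ) : tr (Finsupp.single i 1) = Pi.single i 1 := by
  funext j
  by_cases h : j = i
  · subst h; simp [tr]
  · simp [tr, h]

/-- Monoid action of multi-exponents on families by translation. -/
def shiftHom (U : Type*) [Ring U] [Algebra ℂ U] :
    Multiplicative (ℕ →₀ ℕ) →* Module.End ℂ ((ℕ → ℤ) → U) where
  toFun s :=
    { toFun := fun F n => F (n + tr (Multiplicative.toAdd s))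
      map_add' := fun _ _ => rfl
      map_smul' := fun _ _ => rfl }
  map_one' := by
    ext F n
    simp [tr_zero]
  map_mul' := by
    intro s t
    ext F n
    simp only [toAdd_mul, LinearMap.coe_mk, AddHom.coe_mk, Module.End.mul_apply, tr_add]
    rw [add_assoc]

/-- Polynomials in shift operators acting on families. -/
noncomputable def act (U : Type*) [Ring U] [Algebra ℂ U] :
    MvPolynomial ℕ ℂ →ₐ[ℂ] Module.End ℂ ((ℕ → ℤ) → U) :=
  AddMonoidAlgebra.lift ℂ _ _ (shiftHom U)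

lemma act_X (i : ℕ) (F : (ℕ → ℤ) → U) (n : ℕ → ℤ) :
    act U (X i) F n = F (n + Pi.single i 1) := by
  have : act U (X i) = shiftHom U (Multiplicative.ofAdd (Finsupp.single i 1)) := by
    unfold act
    rw [MvPolynomial.X, MvPolynomial.monomial]
    exact (AddMonoidAlgebra.lift_single (shiftHom U) (Finsupp.single i 1) (1:ℂ)).trans (by simp)
  rw [this]
  simp [shiftHom, tr_single]

lemma act_comm (P Q : MvPolynomial ℕ ℂ) (F : (ℕ → ℤ) → U) :
    act U P (act U Q F) = act U Q (act U P F) := by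
  rw [← Module.End.mul_apply, ← map_mul, mul_comm, map_mul, Module.End.mul_apply]

/-- Families killed by a power of the difference of the shifts in directions `i` and `j`. -/
noncomputable def Kl (U : Type*) [Ring U] [Algebra ℂ U] (i j : ℕ) :
    Submodule ℂ ((ℕ → ℤ) → U) where
  carrier := {F | ∃ N : ℕ, act U ((X i - X j) ^ N) F = 0}
  zero_mem' := ⟨0, by simp⟩
  add_mem' := by
    rintro F G ⟨N, hN⟩ ⟨M, hM⟩
    refine ⟨N + M, ?_⟩
    rw [map_add]
    have h1 : act U ((X i - X j) ^ (N + M)) F = 0 := by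
      rw [pow_add, mul_comm, map_mul, Module.End.mul_apply, hN, map_zero]
    have h2 : act U ((X i - X j) ^ (N + M)) G = 0 := by
      rw [pow_add, map_mul, Module.End.mul_apply, hM, map_zero]
    rw [h1, h2, add_zero]
  smul_mem' := by
    rintro a F ⟨N, hN⟩
    exact ⟨N, by rw [map_smul, hN, smul_zero]⟩

lemma mem_Kl {i j : ℕ} {F : (ℕ → ℤ) → U} :
    F ∈ Kl U i j ↔ ∃ N : ℕ, act U ((X i - X j) ^ N) F = 0 := Iff.rfl

lemma act_mem_Kl {i j : ℕ} {F : (ℕ → ℤ) → U} (h : F ∈ Kl U i j) (P : MvPolynomial ℕ ℂ) :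
    act U P F ∈ Kl U i j := by
  obtain ⟨N, hN⟩ := h
  exact ⟨N, by rw [act_comm, hN, map_zero]⟩

/-- Invariance of a family in direction `i`. -/
def Inv (F : (ℕ → ℤ) → U) (i : ℕ) : Prop := ∀ n : ℕ → ℤ, F (n + Pi.single i 1) = F n

lemma mem_Kl_of_eq {i j : ℕ} {F : (ℕ → ℤ) → U}
    (h : ∀ n : ℕ → ℤ, F (n + Pi.single i 1) = F (n + Pi.single j 1)) : F ∈ Kl U i j := by
  refine ⟨1, ?_⟩
  funext n
  rw [pow_one, map_sub, LinearMap.sub_apply, Pi.sub_apply, act_X, act_X, h]
  simp

/-- Multiplication by a coordinate. -/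
lemma coord_smul_mem_Kl_aux (i j r : ℕ) (N : ℕ) : ∀ F : (ℕ → ℤ) → U,
    act U ((X i - X j) ^ N) F = 0 →
    act U ((X i - X j) ^ (N + 1)) (fun n => ((n r : ℤ) : ℂ) • F n) = 0 := by
  induction N with
  | zero =>
    intro F hF
    have : F = 0 := by simpa using hF
    subst this
    have : (fun n : ℕ → ℤ => ((n r : ℤ) : ℂ) • (0 : (ℕ → ℤ) → U) n) = 0 := by
      funext n; simp
    rw [this, map_zero]
  | succ N ih =>
    intro F hF
    have key : act U (X i - X j) (fun n => ((n r : ℤ) : ℂ) • F n) =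
        (fun n => ((n r : ℤ) : ℂ) • (act U (X i - X j) F) n) +
        ((if r = i then (1:ℂ) else 0) • act U (X i) F -
          (if r = j then (1:ℂ) else 0) • act U (X j) F) := by
      funext n
      simp only [map_sub, LinearMap.sub_apply, Pi.sub_apply, act_X, Pi.add_apply, Pi.smul_apply,
        Pi.single_apply, smul_sub, Int.cast_add, add_smul]
      have c1 : (((if r = i then (1:ℤ) else 0) : ℤ) : ℂ) = if r = i then (1:ℂ) else 0 := by
        split_ifs <;> simp
      have c2 : (((if r = j then (1:ℤ) else 0) : ℤ) : ℂ) = if r = j then (1:ℂ) else 0 := by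
        split_ifs <;> simp
      rw [c1, c2]
      abel
    rw [pow_succ, map_mul, Module.End.mul_apply, key]
    simp only [map_add, map_sub (act U ((X i - X j) ^ (N + 1))), map_smul]
    have e1 : act U ((X i - X j) ^ N) (act U (X i - X j) F) = 0 := by
      rw [← Module.End.mul_apply, ← map_mul, ← pow_succ]; exact hF
    rw [ih _ e1, act_comm, act_comm _ (X j), hF]
    simp

lemma coord_smul_mem_Kl {i j : ℕ} (r : ℕ) {F : (ℕ → ℤ) → U} (h : F ∈ Kl U i j) :
    (fun n => ((n r : ℤ) : ℂ) • F n) ∈ Kl U i j := by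
  obtain ⟨N, hN⟩ := h
  exact ⟨N + 1, coord_smul_mem_Kl_aux i j r N F hN⟩

/-- Multiplication by a polynomial in the coordinates. -/
lemma poly_smul_mem_Kl {i j : ℕ} (P : MvPolynomial ℕ ℂ) : ∀ {F : (ℕ → ℤ) → U}, F ∈ Kl U i j →
    (fun n => (eval (fun k => ((n k : ℤ) : ℂ)) P) • F n) ∈ Kl U i j := by
  induction P using MvPolynomial.induction_on with
  | C a =>
    intro F hF
    have := (Kl U i j).smul_mem a hF
    convert this using 1
    funext n
    simp
  | add p q hp hq =>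
    intro F hF
    have := (Kl U i j).add_mem (hp hF) (hq hF)
    convert this using 1
    funext n
    simp [add_smul]
  | mul_X p r hp =>
    intro F hF
    have := hp (coord_smul_mem_Kl r hF)
    convert this using 1
    funext n
    simp [mul_smul]

/-- Left multiplication by an invariant family commutes with a polynomial of shifts. -/
lemma act_mul_left {G : (ℕ → ℤ) → U} (P : MvPolynomial ℕ ℂ) (s : Set ℕ)
    (hP : P ∈ Algebra.adjoin ℂ (X '' s : Set (MvPolynomial ℕ ℂ))) (hG : ∀ i ∈ s, Inv G i) :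
    ∀ F : (ℕ → ℤ) → U, act U P (fun n => G n * F n) = fun n => G n * act U P F n := by
  induction hP using Algebra.adjoin_induction with
  | mem x hx =>
    obtain ⟨i, hi, rfl⟩ := hx
    intro F
    funext n
    rw [act_X, act_X, hG i hi n]
  | algebraMap r =>
    intro F
    funext n
    simp [Algebra.algebraMap_eq_smul_one]
  | add x y _ _ hx hy =>
    intro F
    rw [map_add, LinearMap.add_apply, hx, hy]
    funext n
    simp [mul_add]
  | mul x y _ _ hx hy =>
    intro F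
    rw [map_mul, Module.End.mul_apply, hy, hx]
    funext n
    simp

lemma act_mul_right {G : (ℕ → ℤ) → U} (P : MvPolynomial ℕ ℂ) (s : Set ℕ)
    (hP : P ∈ Algebra.adjoin ℂ (X '' s : Set (MvPolynomial ℕ ℂ))) (hG : ∀ i ∈ s, Inv G i) :
    ∀ F : (ℕ → ℤ) → U, act U P (fun n => F n * G n) = fun n => act U P F n * G n := by
  induction hP using Algebra.adjoin_induction with
  | mem x hx =>
    obtain ⟨i, hi, rfl⟩ := hx
    intro F
    funext n
    rw [act_X, act_X, hG i hi n]
  | algebraMap r =>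
    intro F
    funext n
    simp [Algebra.algebraMap_eq_smul_one]
  | add x y _ _ hx hy =>
    intro F
    rw [map_add, LinearMap.add_apply, hx, hy]
    funext n
    simp [add_mul]
  | mul x y _ _ hx hy =>
    intro F
    rw [map_mul, Module.End.mul_apply, hy, hx]
    funext n
    simp

lemma X_mem_adj {s : Set ℕ} {i : ℕ} (hi : i ∈ s) :
    (X i : MvPolynomial ℕ ℂ) ∈ Algebra.adjoin ℂ (X '' s : Set (MvPolynomial ℕ ℂ)) :=
  Algebra.subset_adjoin ⟨i, hi, rfl⟩

lemma diff_pow_mem_adj {s : Set ℕ} {i j : ℕ} (hi : i ∈ s) (hj : j ∈ s) (N : ℕ) :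
    ((X i - X j) ^ N : MvPolynomial ℕ ℂ) ∈
      Algebra.adjoin ℂ (X '' s : Set (MvPolynomial ℕ ℂ)) :=
  Subalgebra.pow_mem _ (Subalgebra.sub_mem _ (X_mem_adj hi) (X_mem_adj hj)) N

lemma mul_left_mem_Kl {i j : ℕ} {G F : (ℕ → ℤ) → U} (hi : Inv G i) (hj : Inv G j)
    (h : F ∈ Kl U i j) : (fun n => G n * F n) ∈ Kl U i j := by
  obtain ⟨N, hN⟩ := h
  refine ⟨N, ?_⟩
  rw [act_mul_left _ {i, j} (diff_pow_mem_adj (by simp) (by simp) N), hN]
  · funext n; simp
  · intro k hk
    rcases hk with rfl | hk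
    · exact hi
    · rw [Set.mem_singleton_iff.1 hk]; exact hj

lemma mul_right_mem_Kl {i j : ℕ} {G F : (ℕ → ℤ) → U} (hi : Inv G i) (hj : Inv G j)
    (h : F ∈ Kl U i j) : (fun n => F n * G n) ∈ Kl U i j := by
  obtain ⟨N, hN⟩ := h
  refine ⟨N, ?_⟩
  rw [act_mul_right _ {i, j} (diff_pow_mem_adj (by simp) (by simp) N), hN]
  · funext n; simp
  · intro k hk
    rcases hk with rfl | hk
    · exact hi
    · rw [Set.mem_singleton_iff.1 hk]; exact hj

/-- The pairs of indices in `A` lying in different blocks. -/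
def bad (A : Finset ℕ) : Finset (ℕ × ℕ) := (A ×ˢ A).filter (fun p => p.1 / 2 ≠ p.2 / 2)

lemma mem_bad {A : Finset ℕ} {p : ℕ × ℕ} :
    p ∈ bad A ↔ p.1 ∈ A ∧ p.2 ∈ A ∧ p.1 / 2 ≠ p.2 / 2 := by
  simp [bad, and_assoc]

/-- Sum of the spaces `Kl U i j` over all pairs of indices in different blocks. -/
noncomputable def KK (U : Type*) [Ring U] [Algebra ℂ U] (A : Finset ℕ) :
    Submodule ℂ ((ℕ → ℤ) → U) := ⨆ p : bad A, Kl U p.1.1 p.1.2

lemma Kl_le_KK {A : Finset ℕ} {i j : ℕ} (hi : i ∈ A) (hj : j ∈ A) (hij : i / 2 ≠ j / 2) :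
    Kl U i j ≤ KK U A :=
  le_iSup (fun p : bad A => Kl U p.1.1 p.1.2) ⟨(i, j), mem_bad.2 ⟨hi, hj, hij⟩⟩

lemma KK_mono {A B : Finset ℕ} (h : A ⊆ B) : KK U A ≤ KK U B := by
  refine iSup_le ?_
  rintro ⟨⟨i, j⟩, hp⟩
  obtain ⟨h1, h2, h3⟩ := mem_bad.1 hp
  exact Kl_le_KK (h h1) (h h2) h3

lemma KK_induction {A : Finset ℕ} {p : ((ℕ → ℤ) → U) → Prop}
    (h1 : ∀ i j, i ∈ A → j ∈ A → i / 2 ≠ j / 2 → ∀ F ∈ Kl U i j, p F)
    (h0 : p 0) (ha : ∀ F G, p F → p G → p (F + G)) {F : (ℕ → ℤ) → U} (hF : F ∈ KK U A) : p F := by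
  refine Submodule.iSup_induction (fun p : bad A => Kl U p.1.1 p.1.2) (motive := p) hF ?_ h0 ha
  rintro ⟨⟨i, j⟩, hp⟩ F hF
  obtain ⟨h1', h2, h3⟩ := mem_bad.1 hp
  exact h1 i j h1' h2 h3 F hF

lemma mul_left_mem_KK {A : Finset ℕ} {G F : (ℕ → ℤ) → U} (hG : ∀ i ∈ A, Inv G i)
    (h : F ∈ KK U A) : (fun n => G n * F n) ∈ KK U A := by
  refine KK_induction (p := fun F => (fun n => G n * F n) ∈ KK U A) ?_ ?_ ?_ h
  · intro i j hi hj hij F hF
    exact Kl_le_KK hi hj hij (mul_left_mem_Kl (hG i hi) (hG j hj) hF)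
  · have : (fun n : ℕ → ℤ => G n * (0 : (ℕ → ℤ) → U) n) = 0 := by funext n; simp
    rw [this]; exact Submodule.zero_mem _
  · intro F F' h1 h2
    have : (fun n : ℕ → ℤ => G n * (F + F') n) = (fun n => G n * F n) + (fun n => G n * F' n) := by
      funext n; simp [mul_add]
    rw [this]; exact Submodule.add_mem _ h1 h2

lemma act_mem_KK {A : Finset ℕ} {F : (ℕ → ℤ) → U} (P : MvPolynomial ℕ ℂ)
    (h : F ∈ KK U A) : act U P F ∈ KK U A := by
  refine KK_induction (p := fun F => act U P F ∈ KK U A) ?_ ?_ ?_ h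
  · intro i j hi hj hij F hF
    exact Kl_le_KK hi hj hij (act_mem_Kl hF P)
  · simp
  · intro F F' h1 h2
    rw [map_add]; exact Submodule.add_mem _ h1 h2

/-- The product of all differences of shifts over pairs in different blocks. -/
noncomputable def DD (A : Finset ℕ) : MvPolynomial ℕ ℂ := ∏ p ∈ bad A, (X p.1 - X p.2)

lemma exists_pow_kill {A : Finset ℕ} {F : (ℕ → ℤ) → U} (h : F ∈ KK U A) :
    ∃ N : ℕ, act U (DD A ^ N) F = 0 := by
  refine KK_induction (p := fun F => ∃ N : ℕ, act U (DD A ^ N) F = 0) ?_ ?_ ?_ h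
  · intro i j hi hj hij F hF
    obtain ⟨N, hN⟩ := hF
    refine ⟨N, ?_⟩
    have hmem : (i, j) ∈ bad A := mem_bad.2 ⟨hi, hj, hij⟩
    have hd : DD A = (∏ p ∈ (bad A).erase (i, j), (X p.1 - X p.2 : MvPolynomial ℕ ℂ)) *
        (X i - X j) := by
      unfold DD
      rw [Finset.prod_erase_mul _ _ hmem]
    rw [hd, mul_pow, map_mul, Module.End.mul_apply, hN, map_zero]
  · exact ⟨0, by simp⟩
  · rintro F G ⟨N, hN⟩ ⟨M, hM⟩
    refine ⟨N + M, ?_⟩
    have h1 : act U (DD A ^ (N + M)) F = 0 := by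
      rw [pow_add, mul_comm, map_mul, Module.End.mul_apply, hN, map_zero]
    have h2 : act U (DD A ^ (N + M)) G = 0 := by
      rw [pow_add, map_mul, Module.End.mul_apply, hM, map_zero]
    rw [map_add, h1, h2, add_zero]

end shift

end Pool.Agent.Lib.VirSimple
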